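import Pool.Agent.X26.LF.Stm

/-! Part BAD of project LF (S07017, helper26). -/

set_option autoImplicit false

namespace Pool.Agent.X191.LF

open Finset Pool.Agent.X26.LF

section

variable {p N m : ℕ}

def val (A : Finset (ZMod p)) (x : Fin N → ZMod p) (z : {a // a ∈ A} ⊕ Fin N) : ZMod p :=
  Sum.elim (fun a : {a // a ∈ A} => a.1) x z

theorem val_inl (A : Finset (ZMod p)) (x : Fin N → ZMod p) (a : {a // a ∈ A}) :
    val A x (Sum.inl a) = (a : ZMod p) := by simp [val]

theorem val_inr (A : Finset (ZMod p)) (x : Fin N → ZMod p) (t : Fin N) :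
    val A x (Sum.inr t) = x t := by simp [val]

theorem cfg (hCNT : S_CNT) [Fact p.Prime] (u v : Fin m → ℤ) (A : Finset (ZMod p)) (s : ZMod p)
    (hm : 1 ≤ m) (hNP : NP u v p) (hF : Free v p A) (ι : Fin m ↪ Fin N) (K L : Finset (Fin m))
    (b : Fin m → {a // a ∈ A} ⊕ Fin N) (hK : ∀ i ∈ K, ∃ a, b i = Sum.inl a)
    (hL : ∀ i ∈ L, ∃ t, b i = Sum.inr t) (S : Finset (Fin N → ZMod p))
    (hS : ∀ x ∈ S, ∑ j, (u j : ZMod p) * x (ι j) = s ∧
      ∑ i ∈ K, (v i : ZMod p) * val A x (b i) + ∑ i ∈ L, (v i : ZMod p) * val A x (b i) = 1) :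
    p ^ 2 * S.card ≤ p ^ N := by
  classical
  set c : Fin N → ZMod p := fun i => ∑ j, if ι j = i then (u j : ZMod p) else 0 with hc
  set d : Fin N → ZMod p := fun i => ∑ k ∈ L, if b k = Sum.inr i then (v k : ZMod p) else 0 with hd
  set t : ZMod p := 1 - ∑ i ∈ K, (v i : ZMod p) * val A (fun _ => 0) (b i) with ht
  have hcι : ∀ j, c (ι j) = u j := by
    intro j
    rw [hc]
    simp only [ι.injective.eq_iff]
    rw [Finset.sum_ite_eq' univ j]
    simp
  have h1 : ∀ x : Fin N → ZMod p, ∑ i, c i * x i = ∑ j, (u j : ZMod p) * x (ι j) := by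
    intro x
    rw [hc]
    simp only [Finset.sum_mul]
    rw [Finset.sum_comm]
    refine Finset.sum_congr rfl fun j _ => ?_
    rw [Finset.sum_eq_single (ι j)]
    · rw [if_pos rfl]
    · intro i _ hi
      rw [if_neg (fun h => hi h.symm), zero_mul]
    · intro h
      exact absurd (mem_univ _) h
  have h2 : ∀ x : Fin N → ZMod p, ∑ i, d i * x i = ∑ k ∈ L, (v k : ZMod p) * val A x (b k) := by
    intro x
    rw [hd]
    simp only [Finset.sum_mul]
    rw [Finset.sum_comm]
    refine Finset.sum_congr rfl fun k hk => ?_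
    obtain ⟨w, hw⟩ := hL k hk
    rw [Finset.sum_eq_single w]
    · rw [if_pos hw, hw, val_inr]
    · intro i _ hi
      rw [if_neg (fun h => hi (Sum.inr_injective (h.symm.trans hw))), zero_mul]
    · intro h
      exact absurd (mem_univ _) h
  have h3 : ∀ x : Fin N → ZMod p, ∑ i ∈ K, (v i : ZMod p) * val A x (b i) =
      ∑ i ∈ K, (v i : ZMod p) * val A (fun _ => 0) (b i) := by
    intro x
    refine Finset.sum_congr rfl fun i hi => ?_
    obtain ⟨a, ha⟩ := hK i hi
    rw [ha, val_inl, val_inl]
  have hmem : ∀ x ∈ S, ∑ i, c i * x i = s ∧ ∑ i, d i * x i = t := by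
    intro x hx
    obtain ⟨e1, e2⟩ := hS x hx
    refine ⟨(h1 x).trans e1, ?_⟩
    rw [h2 x, ht, ← h3 x]
    exact eq_sub_of_add_eq' e2
  have hc0 : c ≠ 0 := by
    intro h
    have h4 := hcι ⟨0, hm⟩
    rw [h] at h4
    exact hNP.1 _ h4.symm
  by_cases hl : ∃ l, d = fun i => l * c i
  · obtain ⟨l, hl⟩ := hl
    have hemp : S = ∅ := by
      rw [Finset.eq_empty_iff_forall_notMem]
      intro x hx
      obtain ⟨-, e2⟩ := hmem x hx
      by_cases hl0 : l = 0
      · have h5 : ∑ i, d i * x i = 0 := by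
          refine Finset.sum_eq_zero fun i _ => ?_
          rw [hl, hl0]
          simp
        rw [h5] at e2
        refine hF K (fun i => val A (fun _ => 0) (b i)) ?_ ?_
        · intro i hi
          obtain ⟨a, ha⟩ := hK i hi
          show val A (fun _ => 0) (b i) ∈ A
          rw [ha, val_inl]
          exact a.2
        · rw [ht] at e2
          exact (sub_eq_zero.mp e2.symm).symm
      · have h6 : ∀ j, ∃ k ∈ L, b k = Sum.inr (ι j) := by
          intro j
          by_contra hcon
          push Not at hcon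
          have h7 : d (ι j) = 0 := by
            rw [hd]
            exact Finset.sum_eq_zero fun k hk => if_neg (hcon k hk)
          have h8 : d (ι j) = l * u j := by rw [hl]; simp only [hcι]
          rw [h7] at h8
          rcases mul_eq_zero.mp h8.symm with h9 | h9
          · exact hl0 h9
          · exact hNP.1 _ h9
        choose τ hτL hτ using h6
        have hτi : Function.Injective τ := by
          intro j j' h
          have : (Sum.inr (ι j) : {a // a ∈ A} ⊕ Fin N) = Sum.inr (ι j') := by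
            rw [← hτ j, ← hτ j', h]
          exact ι.injective (Sum.inr_injective this)
        have hτb : Function.Bijective τ := Finite.injective_iff_bijective.mp hτi
        let e := Equiv.ofBijective τ hτb
        refine hNP.2 e.symm l fun k => ?_
        have hk : τ (e.symm k) = k := e.apply_symm_apply k
        have h10 : d (ι (e.symm k)) = l * u (e.symm k) := by rw [hl]; simp only [hcι]
        rw [← h10, hd]
        simp only
        rw [Finset.sum_eq_single k]
        · rw [if_pos]
          have := hτ (e.symm k)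
          rwa [hk] at this
        · intro k' _ hk'
          rw [if_neg]
          intro h
          apply hk'
          have h11 : b (τ (e.symm k')) = Sum.inr (ι (e.symm k')) := hτ _
          have h12 : τ (e.symm k') = k' := e.apply_symm_apply k'
          rw [h12, h] at h11
          have h13 := ι.injective (Sum.inr_injective h11)
          exact (e.symm.injective h13).symm
        · intro h
          exfalso
          apply h
          have := hτL (e.symm k)
          rwa [hk] at this
    rw [hemp]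
    simp
  · have h14 := (hCNT p N c d s t hc0).2 hl
    rw [← h14]
    refine Nat.mul_le_mul_left _ (Finset.card_le_card fun x hx => ?_)
    rw [Finset.mem_filter]
    exact ⟨mem_univ _, hmem x hx⟩

end

theorem t_BAD : S_BAD := by
  classical
  intro hCNT m p N _ u v A s hm hNP hF
  let T := (Fin m ↪ Fin N) × Fin m × Fin m × Finset (Fin m) × Finset (Fin m)
  let B : T → Finset (Fin m → {a // a ∈ A} ⊕ Fin N) := fun q =>
    Fintype.piFinset fun i => if i = q.2.2.1 then {Sum.inr (q.1 q.2.1)} else univ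
  let Q : Finset (Σ _ : T, (Fin m → {a // a ∈ A} ⊕ Fin N)) := univ.sigma B
  let S : (Σ _ : T, (Fin m → {a // a ∈ A} ⊕ Fin N)) → Finset (Fin N → ZMod p) := fun q =>
    univ.filter fun x => (∑ j, (u j : ZMod p) * x (q.1.1 j) = s ∧
      ∑ i ∈ q.1.2.2.2.1, (v i : ZMod p) * val A x (q.2 i) +
        ∑ i ∈ q.1.2.2.2.2, (v i : ZMod p) * val A x (q.2 i) = 1) ∧
      (∀ i ∈ q.1.2.2.2.1, ∃ a, q.2 i = Sum.inl a) ∧ (∀ i ∈ q.1.2.2.2.2, ∃ t, q.2 i = Sum.inr t)
  have hSq : ∀ q ∈ Q, p ^ 2 * (S q).card ≤ p ^ N := by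
    intro q _
    by_cases hne : (S q).Nonempty
    · obtain ⟨x, hx⟩ := hne
      have hx' := (Finset.mem_filter.mp hx).2.2
      refine cfg hCNT u v A s hm hNP hF q.1.1 q.1.2.2.2.1 q.1.2.2.2.2 q.2 hx'.1 hx'.2 (S q) ?_
      intro y hy
      exact (Finset.mem_filter.mp hy).2.1
    · rw [Finset.not_nonempty_iff_eq_empty.mp hne]
      simp
  have hsub : (univ.filter fun x : Fin N → ZMod p => ∃ ι : Fin m ↪ Fin N,
      ∑ j, (u j : ZMod p) * x (ι j) = s ∧ ∃ j, Bad v p A x (ι j)) ⊆ Q.biUnion S := by
    intro x hx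
    obtain ⟨ι, h1, j, K, L, a, κ, hKL, hK, ⟨k, hkL, hk⟩, hrel⟩ := (Finset.mem_filter.mp hx).2
    rw [Finset.mem_biUnion]
    let b : Fin m → {a // a ∈ A} ⊕ Fin N := fun i =>
      if i ∈ L then Sum.inr (κ i) else if h : a i ∈ A then Sum.inl ⟨a i, h⟩ else Sum.inr (κ i)
    have hbL : ∀ i ∈ L, b i = Sum.inr (κ i) := fun i hi => if_pos hi
    have hbK : ∀ i (hi : i ∈ K), b i = Sum.inl ⟨a i, hK i hi⟩ := by
      intro i hi
      have h2 : i ∉ L := Finset.disjoint_left.mp hKL hi
      simp only [b, if_neg h2, dif_pos (hK i hi)]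
    refine ⟨⟨(ι, j, k, K, L), b⟩, ?_, ?_⟩
    · rw [Finset.mem_sigma]
      refine ⟨mem_univ _, ?_⟩
      rw [Fintype.mem_piFinset]
      intro i
      by_cases hi : i = k
      · subst hi
        simp only [if_true]
        rw [Finset.mem_singleton, hbL i hkL, hk]
      · simp only [if_neg hi]
        exact mem_univ _
    · rw [Finset.mem_filter]
      refine ⟨mem_univ _, ⟨h1, ?_⟩, ?_, ?_⟩
      · rw [← hrel]
        congr 1
        · refine Finset.sum_congr rfl fun i hi => ?_
          show (v i : ZMod p) * val A x (b i) = _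
          rw [hbK i hi, val_inl]
        · refine Finset.sum_congr rfl fun i hi => ?_
          show (v i : ZMod p) * val A x (b i) = _
          rw [hbL i hi, val_inr]
      · exact fun i hi => ⟨_, hbK i hi⟩
      · exact fun i hi => ⟨_, hbL i hi⟩
  have hB : ∀ q : T, (B q).card = (A.card + N) ^ (m - 1) := by
    intro q
    rw [Fintype.card_piFinset]
    have h2 : ∀ i : Fin m, (if i = q.2.2.1 then ({Sum.inr (q.1 q.2.1)} : Finset ({a // a ∈ A} ⊕ Fin N))
        else univ).card = if i = q.2.2.1 then 1 else A.card + N := by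
      intro i
      split_ifs
      · simp
      · simp
    rw [Finset.prod_congr rfl fun i _ => h2 i, Finset.prod_ite]
    rw [Finset.prod_const_one, one_mul, Finset.prod_const]
    congr 1
    rw [Finset.filter_not, Finset.card_sdiff]
    simp [Finset.filter_eq']
  have hQ : Q.card ≤ m ^ 2 * 4 ^ m * (A.card + N) ^ (2 * m - 1) := by
    rw [Finset.card_sigma]
    rw [Finset.sum_congr rfl fun q _ => hB q, Finset.sum_const, smul_eq_mul]
    have h3 : (univ : Finset T).card = (N.descFactorial m) * (m * (m * (2 ^ m * 2 ^ m))) := by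
      rw [Finset.card_univ]
      simp only [T, Fintype.card_prod, Fintype.card_embedding_eq, Fintype.card_fin,
        Fintype.card_finset]
    rw [h3]
    have h4 : N.descFactorial m ≤ (A.card + N) ^ m :=
      (Nat.descFactorial_le_pow N m).trans (Nat.pow_le_pow_left (Nat.le_add_left _ _) _)
    have h5 : (2 : ℕ) ^ m * 2 ^ m = 4 ^ m := by
      rw [← mul_pow]
      norm_num
    have h6 : (A.card + N) ^ m * (A.card + N) ^ (m - 1) = (A.card + N) ^ (2 * m - 1) := by
      rw [← pow_add]
      congr 1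
      omega
    calc N.descFactorial m * (m * (m * (2 ^ m * 2 ^ m))) * (A.card + N) ^ (m - 1)
        ≤ (A.card + N) ^ m * (m * (m * (2 ^ m * 2 ^ m))) * (A.card + N) ^ (m - 1) :=
          Nat.mul_le_mul_right _ (Nat.mul_le_mul_right _ h4)
      _ = m ^ 2 * 4 ^ m * ((A.card + N) ^ m * (A.card + N) ^ (m - 1)) := by
          rw [h5]; ring
      _ = _ := by rw [h6]
  calc p ^ 2 * (univ.filter fun x : Fin N → ZMod p => ∃ ι : Fin m ↪ Fin N,
      ∑ j, (u j : ZMod p) * x (ι j) = s ∧ ∃ j, Bad v p A x (ι j)).card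
      ≤ p ^ 2 * (Q.biUnion S).card := Nat.mul_le_mul_left _ (Finset.card_le_card hsub)
    _ ≤ p ^ 2 * ∑ q ∈ Q, (S q).card := Nat.mul_le_mul_left _ Finset.card_biUnion_le
    _ = ∑ q ∈ Q, p ^ 2 * (S q).card := by rw [Finset.mul_sum]
    _ ≤ ∑ q ∈ Q, p ^ N := Finset.sum_le_sum hSq
    _ = Q.card * p ^ N := by rw [Finset.sum_const, smul_eq_mul]
    _ ≤ _ := Nat.mul_le_mul_right _ hQ

end Pool.Agent.X191.LF
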